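import Pool.Agent.TH853.Reg.Height

set_option autoImplicit false

/-!
# Escape at the archimedean place and at the `p`-adic places
-/

namespace Pool.Agent.TH853.Reg

open Polynomial

/-- all coefficients are at most `H` -/
def CB (H : ℕ) (f : ℤ[X]) : Prop := ∀ j, (f.coeff j).natAbs ≤ H

theorem abs_coeff_le {H : ℕ} {f : ℤ[X]} (hf : CB H f) (j : ℕ) : |((f.coeff j : ℤ) : ℚ)| ≤ H := by
  rw [← Int.cast_abs, Int.abs_eq_natAbs]
  exact_mod_cast hf j

theorem arch_ub {D H : ℕ} {f : ℤ[X]} (hD : f.natDegree ≤ D) (hf : CB H f) {x : ℚ}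
    (hx : 1 ≤ |x|) : |aeval x f| ≤ ((D : ℚ) + 1) * H * |x| ^ D := by
  rw [aeval_sum f x (D + 1) (by omega)]
  refine (Finset.abs_sum_le_sum_abs _ _).trans ?_
  have h1 : ∀ j ∈ Finset.range (D + 1), |((f.coeff j : ℤ) : ℚ) * x ^ j| ≤ H * |x| ^ D := by
    intro j hj
    rw [Finset.mem_range] at hj
    rw [abs_mul, abs_pow]
    exact mul_le_mul (abs_coeff_le hf j) (pow_le_pow_right₀ hx (by omega)) (by positivity)
      (Nat.cast_nonneg _)
  have h2 := Finset.sum_le_card_nsmul _ _ _ h1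
  rw [Finset.card_range, nsmul_eq_mul] at h2
  refine h2.trans (le_of_eq ?_)
  push_cast
  ring

theorem arch_lb {D H : ℕ} {f : ℤ[X]} (hD : f.natDegree = D + 1) (hf : CB H f) {x : ℚ}
    (hx : 1 ≤ |x|) : |x| ^ D * (|x| - ((D : ℚ) + 1) * H) ≤ |aeval x f| := by
  rw [aeval_sum f x (D + 2) (by omega), Finset.sum_range_succ]
  have hlc : f.coeff (D + 1) ≠ 0 := by
    rw [← hD]
    refine leadingCoeff_ne_zero.2 ?_
    rintro rfl
    simp at hD
  have h1 : |x| ^ (D + 1) ≤ |((f.coeff (D + 1) : ℤ) : ℚ) * x ^ (D + 1)| := by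
    rw [abs_mul, abs_pow]
    have h2 : (1 : ℚ) ≤ |((f.coeff (D + 1) : ℤ) : ℚ)| := by
      rw [← Int.cast_abs]
      exact_mod_cast Int.one_le_abs hlc
    have h3 : 0 ≤ |x| ^ (D + 1) := by positivity
    nlinarith
  have h2 : |∑ j ∈ Finset.range (D + 1), ((f.coeff j : ℤ) : ℚ) * x ^ j| ≤
      ((D : ℚ) + 1) * H * |x| ^ D := by
    refine (Finset.abs_sum_le_sum_abs _ _).trans ?_
    have h1 : ∀ j ∈ Finset.range (D + 1), |((f.coeff j : ℤ) : ℚ) * x ^ j| ≤ H * |x| ^ D := by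
      intro j hj
      rw [Finset.mem_range] at hj
      rw [abs_mul, abs_pow]
      exact mul_le_mul (abs_coeff_le hf j) (pow_le_pow_right₀ hx (by omega)) (by positivity)
        (Nat.cast_nonneg _)
    have h2 := Finset.sum_le_card_nsmul _ _ _ h1
    rw [Finset.card_range, nsmul_eq_mul] at h2
    refine h2.trans (le_of_eq ?_)
    push_cast
    ring
  have h3 := abs_sub_abs_le_abs_sub (((f.coeff (D + 1) : ℤ) : ℚ) * x ^ (D + 1))
    (-∑ j ∈ Finset.range (D + 1), ((f.coeff j : ℤ) : ℚ) * x ^ j)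
  rw [abs_neg, sub_neg_eq_add, add_comm (((f.coeff (D + 1) : ℤ) : ℚ) * x ^ (D + 1))] at h3
  have h4 : |x| ^ (D + 1) = |x| ^ D * |x| := pow_succ _ _
  linarith

theorem arch_one {D H : ℕ} {f : ℤ[X]} (hf0 : f ≠ 0) (hD : f.natDegree ≤ D) (hf : CB H f) {x : ℚ}
    (hx : (D : ℚ) * H + 1 ≤ |x|) : 1 ≤ |aeval x f| := by
  have hH0 : (0 : ℚ) ≤ H := Nat.cast_nonneg _
  have hD0 : (0 : ℚ) ≤ D := Nat.cast_nonneg _
  have hx1 : 1 ≤ |x| := by nlinarith [mul_nonneg hD0 hH0]
  rcases Nat.eq_zero_or_pos f.natDegree with h0 | h0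
  · rw [eq_C_of_natDegree_eq_zero h0, aeval_C]
    have h1 : f.coeff 0 ≠ 0 := by
      intro h1
      apply hf0
      rw [eq_C_of_natDegree_eq_zero h0, h1, C_0]
    have h2 := Int.one_le_abs h1
    have h3 : (algebraMap ℤ ℚ) (f.coeff 0) = ((f.coeff 0 : ℤ) : ℚ) := rfl
    rw [h3, ← Int.cast_abs]
    exact_mod_cast h2
  · obtain ⟨d, hd⟩ : ∃ d, f.natDegree = d + 1 := ⟨f.natDegree - 1, by omega⟩
    have h1 := arch_lb hd hf hx1
    have h2 : (1 : ℚ) ≤ |x| ^ d := one_le_pow₀ hx1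
    have h3 : ((d : ℚ) + 1) ≤ D := by
      have : d + 1 ≤ D := by omega
      exact_mod_cast this
    have h4 : ((d : ℚ) + 1) * H ≤ D * H := mul_le_mul_of_nonneg_right h3 hH0
    have h5 : 1 ≤ |x| - ((d : ℚ) + 1) * H := by linarith
    nlinarith

theorem arch_step {m : ℕ} (hm : 1 ≤ m) {a : ℕ → ℚ} {E u : ℚ} (hE : 0 ≤ E)
    (ha : ∀ i < m, |a i| ≤ E) (ham : 1 ≤ |a m|) (hu : 1 ≤ |u|) (huE : m * E ≤ |u|) :
    |u| - m * E ≤ |∑ i ∈ Finset.range (m + 1), a i * u ^ i| := by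
  obtain ⟨m', rfl⟩ : ∃ m', m = m' + 1 := ⟨m - 1, by omega⟩
  rw [Finset.sum_range_succ]
  have h1 : |u| ^ (m' + 1) ≤ |a (m' + 1) * u ^ (m' + 1)| := by
    rw [abs_mul, abs_pow]
    have h3 : 0 ≤ |u| ^ (m' + 1) := by positivity
    nlinarith
  have h2 : |∑ i ∈ Finset.range (m' + 1), a i * u ^ i| ≤ ((m' + 1 : ℕ) : ℚ) * (E * |u| ^ m') := by
    refine (Finset.abs_sum_le_sum_abs _ _).trans ?_
    have h1 : ∀ i ∈ Finset.range (m' + 1), |a i * u ^ i| ≤ E * |u| ^ m' := by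
      intro i hi
      rw [Finset.mem_range] at hi
      rw [abs_mul, abs_pow]
      exact mul_le_mul (ha i hi) (pow_le_pow_right₀ hu (by omega)) (by positivity) hE
    have h2 := Finset.sum_le_card_nsmul _ _ _ h1
    rwa [Finset.card_range, nsmul_eq_mul] at h2
  have h3 := abs_sub_abs_le_abs_sub (a (m' + 1) * u ^ (m' + 1))
    (-∑ i ∈ Finset.range (m' + 1), a i * u ^ i)
  rw [abs_neg, sub_neg_eq_add, add_comm (a (m' + 1) * u ^ (m' + 1))] at h3
  have h4 : |u| ^ (m' + 1) = |u| ^ m' * |u| := pow_succ _ _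
  have h5 : (1 : ℚ) ≤ |u| ^ m' := one_le_pow₀ hu
  have h6 : |u| - ((m' + 1 : ℕ) : ℚ) * E ≤ |u| ^ m' * (|u| - ((m' + 1 : ℕ) : ℚ) * E) :=
    le_mul_of_one_le_left (by linarith) h5
  nlinarith

section padic

variable {p : ℕ} [Fact p.Prime]

theorem pad_int_le_one (a : ℤ) : padicNorm p (a : ℚ) ≤ 1 := padicNorm.of_int a

theorem pad_pow (x : ℚ) (n : ℕ) : padicNorm p (x ^ n) = padicNorm p x ^ n := by
  induction n with
  | zero => simp
  | succ n ih => rw [pow_succ, padicNorm.mul, ih, pow_succ]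

theorem pad_ub {D : ℕ} {f : ℤ[X]} (hD : f.natDegree ≤ D) {x : ℚ} (hx : 1 ≤ padicNorm p x) :
    padicNorm p (aeval x f) ≤ padicNorm p x ^ D := by
  rw [aeval_sum f x (D + 1) (by omega)]
  refine padicNorm.sum_le' (fun j hj => ?_) (by positivity)
  rw [Finset.mem_range] at hj
  rw [padicNorm.mul, pad_pow]
  calc padicNorm p ((f.coeff j : ℤ) : ℚ) * padicNorm p x ^ j ≤ 1 * padicNorm p x ^ D :=
        mul_le_mul (pad_int_le_one _) (pow_le_pow_right₀ hx (by omega)) (by positivity) zero_le_one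
    _ = padicNorm p x ^ D := one_mul _

/-- the largest term of a sum -/
theorem pad_top {m : ℕ} {t : ℕ → ℚ} (h : ∀ i < m, padicNorm p (t i) < padicNorm p (t m)) :
    padicNorm p (∑ i ∈ Finset.range (m + 1), t i) = padicNorm p (t m) := by
  rw [Finset.sum_range_succ]
  rcases Nat.eq_zero_or_pos m with h0 | h0
  · subst h0
    simp
  have h1 : padicNorm p (∑ i ∈ Finset.range m, t i) < padicNorm p (t m) :=
    padicNorm.sum_lt ⟨0, Finset.mem_range.2 h0⟩ fun i hi => h i (Finset.mem_range.1 hi)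
  rw [padicNorm.add_eq_max_of_ne h1.ne, max_eq_right h1.le]

theorem pad_eq {f : ℤ[X]} {x : ℚ} (hx : 1 ≤ padicNorm p x)
    (h : 1 < padicNorm p (f.leadingCoeff : ℚ) * padicNorm p x) :
    padicNorm p (aeval x f) =
      padicNorm p (f.leadingCoeff : ℚ) * padicNorm p x ^ f.natDegree := by
  rw [aeval_sum f x (f.natDegree + 1) (by omega),
    pad_top (t := fun j => ((f.coeff j : ℤ) : ℚ) * x ^ j), padicNorm.mul, pad_pow]
  · rfl
  intro j hj
  simp only [padicNorm.mul, pad_pow]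
  have hx0 : 0 < padicNorm p x := by linarith
  have h1 : padicNorm p ((f.coeff j : ℤ) : ℚ) * padicNorm p x ^ j ≤
      1 * padicNorm p x ^ (f.natDegree - 1) :=
    mul_le_mul (pad_int_le_one _) (pow_le_pow_right₀ hx (by omega)) (by positivity) zero_le_one
  have h2 : padicNorm p x ^ f.natDegree = padicNorm p x ^ (f.natDegree - 1) * padicNorm p x := by
    rw [← pow_succ]
    congr 1
    omega
  have h3 : padicNorm p ((f.coeff f.natDegree : ℤ) : ℚ) * padicNorm p x ^ f.natDegree =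
      padicNorm p x ^ (f.natDegree - 1) *
        (padicNorm p (f.leadingCoeff : ℚ) * padicNorm p x) := by
    rw [h2]
    have : f.coeff f.natDegree = f.leadingCoeff := rfl
    rw [this]
    ring
  rw [h3]
  have h4 : 0 < padicNorm p x ^ (f.natDegree - 1) := by positivity
  calc padicNorm p ((f.coeff j : ℤ) : ℚ) * padicNorm p x ^ j ≤
        1 * padicNorm p x ^ (f.natDegree - 1) := h1
    _ = padicNorm p x ^ (f.natDegree - 1) * 1 := by ring
    _ < _ := mul_lt_mul_of_pos_left h h4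

theorem pad_step {m : ℕ} (hm : 1 ≤ m) {a : ℕ → ℚ} {T u : ℚ} (hT : 0 ≤ T)
    (ha : ∀ i < m, padicNorm p (a i) ≤ T) (hu : 1 ≤ padicNorm p u)
    (hTu : T < padicNorm p (a m) * padicNorm p u) :
    padicNorm p (∑ i ∈ Finset.range (m + 1), a i * u ^ i) =
      padicNorm p (a m) * padicNorm p u ^ m := by
  rw [pad_top (t := fun i => a i * u ^ i), padicNorm.mul, pad_pow]
  intro i hi
  simp only [padicNorm.mul, pad_pow]
  have h1 : padicNorm p (a i) * padicNorm p u ^ i ≤ T * padicNorm p u ^ (m - 1) :=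
    mul_le_mul (ha i hi) (pow_le_pow_right₀ hu (by omega)) (by positivity) hT
  have h2 : padicNorm p u ^ m = padicNorm p u * padicNorm p u ^ (m - 1) := by
    rw [mul_comm, ← pow_succ]
    congr 1
    omega
  have h4 : 0 < padicNorm p u ^ (m - 1) := by
    have : 0 < padicNorm p u := by linarith
    positivity
  rw [h2, ← mul_assoc]
  exact h1.trans_lt (mul_lt_mul_of_pos_right hTu h4)

end padic

end Pool.Agent.TH853.Reg
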