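import Mathlib

set_option autoImplicit false

/-!
# Heights of rational numbers under one step of a program with one register
-/

namespace Pool.Agent.TH853.Reg

open Polynomial

/-- numerator and denominator of `u` are at most `H` -/
def HB (H : ℕ) (u : ℚ) : Prop := u.num.natAbs ≤ H ∧ u.den ≤ H

theorem HB.mono {H H' : ℕ} {u : ℚ} (h : HB H u) (hH : H ≤ H') : HB H' u :=
  ⟨h.1.trans hH, h.2.trans hH⟩

theorem HB_of_div {H : ℕ} {u : ℚ} {a : ℤ} {d : ℕ} (hd : d ≠ 0) (hu : u * d = a)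
    (ha : a.natAbs ≤ H) (hdH : d ≤ H) : HB H u := by
  have hden : (u.den : ℚ) ≠ 0 := by exact_mod_cast u.den_nz
  have h1 : (u.num : ℚ) * d = a * u.den := by
    have h2 : (u.num : ℚ) = u * u.den := by rw [Rat.mul_den_eq_num]
    rw [h2, ← hu]
    ring
  have h2 : u.num * (d : ℤ) = a * (u.den : ℤ) := by exact_mod_cast h1
  have hcop : IsCoprime (u.num) (u.den : ℤ) := by
    rw [Int.isCoprime_iff_nat_coprime]
    simpa using u.reduced
  constructor
  · have h3 : u.num ∣ a := by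
      have h4 : u.num ∣ a * (u.den : ℤ) := ⟨d, h2.symm⟩
      exact hcop.dvd_of_dvd_mul_right h4
    rcases eq_or_ne a 0 with h0 | h0
    · rw [h0, zero_mul] at h2
      rcases mul_eq_zero.mp h2 with h5 | h5
      · rw [h5]
        simp
      · exact absurd (by exact_mod_cast h5) hd
    · exact (Nat.le_of_dvd (Int.natAbs_pos.2 h0) (Int.natAbs_dvd_natAbs.2 h3)).trans ha
  · have h3 : (u.den : ℤ) ∣ (d : ℤ) := by
      have h4 : (u.den : ℤ) ∣ u.num * (d : ℤ) := ⟨a, by rw [h2]; ring⟩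
      exact hcop.symm.dvd_of_dvd_mul_left h4
    have h5 : u.den ∣ d := by exact_mod_cast h3
    exact (Nat.le_of_dvd (Nat.pos_of_ne_zero hd) h5).trans hdH

/-- `aeval` as a sum -/
theorem aeval_sum (f : ℤ[X]) (x : ℚ) (N : ℕ) (h : f.natDegree < N) :
    aeval x f = ∑ j ∈ Finset.range N, (f.coeff j : ℚ) * x ^ j := by
  rw [aeval_eq_sum_range' h]
  refine Finset.sum_congr rfl fun j _ => ?_
  rw [zsmul_eq_mul]

/-- one step of the program -/
theorem aeval_step (P : ℤ[X][X]) (y : ℤ[X]) (x : ℚ) (N : ℕ) (h : P.natDegree < N) :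
    aeval x (P.eval y) = ∑ i ∈ Finset.range N, aeval x (P.coeff i) * (aeval x y) ^ i := by
  rw [eval_eq_sum_range' h, map_sum]
  refine Finset.sum_congr rfl fun i _ => ?_
  rw [map_mul, map_pow]

/-- backward bound for heights -/
theorem back {m A Q W : ℕ} (hm : 1 ≤ m) (a : ℕ → ℤ) (ha : ∀ i ≤ m, (a i).natAbs ≤ A)
    (ham : a m ≠ 0) (hQ : Q ≤ A) {u w : ℚ}
    (h : ∑ i ∈ Finset.range (m + 1), (a i : ℚ) * u ^ i = Q * w) (hw : HB W w) :
    HB ((m + 2) * A ^ 2 * W) u := by
  have hA1 : 1 ≤ A := Nat.lt_of_lt_of_le (Int.natAbs_pos.2 ham) (ha m le_rfl)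
  have hW1 : 1 ≤ W := w.den_pos.trans_le hw.2
  have hs0 : (u.den : ℚ) ≠ 0 := by exact_mod_cast u.den_nz
  -- the denominator
  have hden : u.den ≤ A * w.den := by
    have h1 : (w.den : ℚ) * ∑ i ∈ Finset.range (m + 1), (a i : ℚ) * (u.num : ℚ) ^ i *
        (u.den : ℚ) ^ (m - i) = Q * w.num * (u.den : ℚ) ^ m := by
      have h2 : ∑ i ∈ Finset.range (m + 1), (a i : ℚ) * (u.num : ℚ) ^ i *
          (u.den : ℚ) ^ (m - i) = (∑ i ∈ Finset.range (m + 1), (a i : ℚ) * u ^ i) *
          (u.den : ℚ) ^ m := by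
        rw [Finset.sum_mul]
        refine Finset.sum_congr rfl fun i hi => ?_
        have hi' : i ≤ m := by
          rw [Finset.mem_range] at hi
          omega
        have h3 : (u.num : ℚ) = u * u.den := by rw [Rat.mul_den_eq_num]
        have h4 : (u.den : ℚ) ^ m = (u.den : ℚ) ^ i * (u.den : ℚ) ^ (m - i) := by
          rw [← pow_add]
          congr 1
          omega
        rw [h3, h4, mul_pow]
        ring
      have h5 : (w.num : ℚ) = w * w.den := by rw [Rat.mul_den_eq_num]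
      rw [h2, h, h5]
      ring
    have h2 : (w.den : ℤ) * ∑ i ∈ Finset.range (m + 1), a i * u.num ^ i *
        (u.den : ℤ) ^ (m - i) = Q * w.num * (u.den : ℤ) ^ m := by exact_mod_cast h1
    rw [Finset.sum_range_succ, Nat.sub_self, pow_zero, mul_one] at h2
    have h3 : (u.den : ℤ) ∣ ∑ i ∈ Finset.range m, a i * u.num ^ i * (u.den : ℤ) ^ (m - i) := by
      refine Finset.dvd_sum fun i hi => ?_
      rw [Finset.mem_range] at hi
      exact Dvd.dvd.mul_left (dvd_pow_self _ (by omega)) _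
    have h4 : (u.den : ℤ) ∣ (w.den : ℤ) * a m * u.num ^ m := by
      have h5 : (w.den : ℤ) * a m * u.num ^ m = Q * w.num * (u.den : ℤ) ^ m -
          (w.den : ℤ) * ∑ i ∈ Finset.range m, a i * u.num ^ i * (u.den : ℤ) ^ (m - i) := by
        rw [← h2]
        ring
      rw [h5]
      exact dvd_sub (Dvd.dvd.mul_left (dvd_pow_self _ (by omega)) _) (Dvd.dvd.mul_left h3 _)
    have hcop : IsCoprime ((u.den : ℤ)) (u.num ^ m) := by
      refine IsCoprime.pow_right ?_
      rw [Int.isCoprime_iff_nat_coprime]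
      simpa using u.reduced.symm
    have h5 : (u.den : ℤ) ∣ (w.den : ℤ) * a m := hcop.dvd_of_dvd_mul_right h4
    have h6 : u.den ∣ w.den * (a m).natAbs := by
      have := Int.natAbs_dvd_natAbs.2 h5
      rwa [Int.natAbs_mul, Int.natAbs_natCast, Int.natAbs_natCast] at this
    have h7 : 0 < w.den * (a m).natAbs := Nat.mul_pos w.den_pos (Int.natAbs_pos.2 ham)
    calc u.den ≤ w.den * (a m).natAbs := Nat.le_of_dvd h7 h6
      _ ≤ w.den * A := Nat.mul_le_mul_left _ (ha m le_rfl)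
      _ = A * w.den := Nat.mul_comm _ _
  -- the absolute value
  have habs : |u| ≤ 1 + A * |w| + m * A := by
    by_contra hcon
    push Not at hcon
    have hw0 : 0 ≤ |w| := abs_nonneg w
    have hA0 : (0 : ℚ) ≤ A := Nat.cast_nonneg A
    have hm0 : (0 : ℚ) ≤ m := Nat.cast_nonneg m
    have hu1 : 1 < |u| := by
      have : 0 ≤ (A : ℚ) * |w| := mul_nonneg hA0 hw0
      have : 0 ≤ (m : ℚ) * A := mul_nonneg hm0 hA0
      linarith
    obtain ⟨m', rfl⟩ : ∃ m', m = m' + 1 := ⟨m - 1, by omega⟩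
    have h1 : |(a (m' + 1) : ℚ) * u ^ (m' + 1)| ≤ A * |w| +
        ∑ i ∈ Finset.range (m' + 1), |(a i : ℚ) * u ^ i| := by
      have h2 : (a (m' + 1) : ℚ) * u ^ (m' + 1) = Q * w -
          ∑ i ∈ Finset.range (m' + 1), (a i : ℚ) * u ^ i := by
        rw [← h, Finset.sum_range_succ]
        ring
      rw [h2]
      refine (abs_sub _ _).trans ?_
      refine add_le_add ?_ (Finset.abs_sum_le_sum_abs _ _)
      rw [abs_mul, Nat.abs_cast]
      exact mul_le_mul_of_nonneg_right (by exact_mod_cast hQ) hw0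
    have h2 : ∑ i ∈ Finset.range (m' + 1), |(a i : ℚ) * u ^ i| ≤
        ((m' + 1 : ℕ) : ℚ) * (A * |u| ^ m') := by
      have h3 : ∀ i ∈ Finset.range (m' + 1), |(a i : ℚ) * u ^ i| ≤ A * |u| ^ m' := by
        intro i hi
        rw [Finset.mem_range] at hi
        rw [abs_mul, abs_pow]
        refine mul_le_mul ?_ (pow_le_pow_right₀ hu1.le (by omega)) (by positivity) hA0
        have h4 := ha i (by omega)
        rw [← Int.cast_abs, Int.abs_eq_natAbs]
        exact_mod_cast h4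
      have h4 := Finset.sum_le_card_nsmul _ _ _ h3
      rwa [Finset.card_range, nsmul_eq_mul] at h4
    have h3 : |u| ^ (m' + 1) ≤ |(a (m' + 1) : ℚ) * u ^ (m' + 1)| := by
      rw [abs_mul, abs_pow]
      have h4 : (1 : ℚ) ≤ |(a (m' + 1) : ℚ)| := by
        rw [← Int.cast_abs]
        exact_mod_cast Int.one_le_abs ham
      have h5 : 0 ≤ |u| ^ (m' + 1) := by positivity
      nlinarith
    have h4 : (1 : ℚ) ≤ |u| ^ m' := one_le_pow₀ hu1.le
    have h5 : |u| ^ (m' + 1) = |u| * |u| ^ m' := by rw [pow_succ]; ring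
    have h6 : (A : ℚ) * |w| ≤ A * |w| * |u| ^ m' :=
      le_mul_of_one_le_right (mul_nonneg hA0 hw0) h4
    have h7 : |u| * |u| ^ m' ≤ (A * |w| + ((m' + 1 : ℕ) : ℚ) * A) * |u| ^ m' := by
      have : |u| * |u| ^ m' ≤ A * |w| + ((m' + 1 : ℕ) : ℚ) * (A * |u| ^ m') := by
        rw [← h5]
        linarith
      nlinarith
    have h8 : |u| ≤ A * |w| + ((m' + 1 : ℕ) : ℚ) * A :=
      le_of_mul_le_mul_right h7 (by linarith)
    linarith
  -- conclusion
  have hsW : u.den ≤ A * W := hden.trans (Nat.mul_le_mul_left _ hw.2)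
  have hAA : A ≤ A ^ 2 := by nlinarith
  refine ⟨?_, ?_⟩
  · have h1 : ((u.num.natAbs : ℕ) : ℚ) = |u| * u.den := by
      have h2 : (u.num : ℚ) = u * u.den := by rw [Rat.mul_den_eq_num]
      have h3 : ((u.num.natAbs : ℕ) : ℚ) = |(u.num : ℚ)| := by
        rw [← Int.cast_abs, Int.abs_eq_natAbs]
        simp
      rw [h3, h2, abs_mul, Nat.abs_cast]
    have h2 : |w| * w.den ≤ W := by
      have h3 : (w.num : ℚ) = w * w.den := by rw [Rat.mul_den_eq_num]
      have h4 : |w| * w.den = ((w.num.natAbs : ℕ) : ℚ) := by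
        have h5 : ((w.num.natAbs : ℕ) : ℚ) = |(w.num : ℚ)| := by
          rw [← Int.cast_abs, Int.abs_eq_natAbs]
          simp
        rw [h5, h3, abs_mul, Nat.abs_cast]
      rw [h4]
      exact_mod_cast hw.1
    have h3 : ((u.num.natAbs : ℕ) : ℚ) ≤ ((m : ℚ) + 2) * A ^ 2 * W := by
      rw [h1]
      have hd : (u.den : ℚ) ≤ A * w.den := by exact_mod_cast hden
      have hd0 : (0 : ℚ) ≤ u.den := Nat.cast_nonneg _
      have hA0 : (1 : ℚ) ≤ A := by exact_mod_cast hA1
      have hm0 : (0 : ℚ) ≤ m := Nat.cast_nonneg m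
      have hwd : (w.den : ℚ) ≤ W := by exact_mod_cast hw.2
      have hwd0 : (0 : ℚ) ≤ w.den := Nat.cast_nonneg _
      have e0 : 0 ≤ 1 + A * |w| + m * A := by positivity
      have e1 : |u| * u.den ≤ (1 + A * |w| + m * A) * (A * w.den) :=
        mul_le_mul habs hd hd0 e0
      have e2 : (1 + A * |w| + m * A) * (A * w.den) =
          (1 + m * A) * A * w.den + A ^ 2 * (|w| * w.den) := by ring
      have e3 : (1 + (m : ℚ) * A) * A * w.den ≤ (1 + (m : ℚ) * A) * A * W :=
        mul_le_mul_of_nonneg_left hwd (by positivity)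
      have e4 : (A : ℚ) ^ 2 * (|w| * w.den) ≤ A ^ 2 * W :=
        mul_le_mul_of_nonneg_left h2 (by positivity)
      have hW0 : (0 : ℚ) ≤ W := Nat.cast_nonneg _
      have e5 : (1 + m * A) * A * (W : ℚ) ≤ ((1 : ℚ) + m) * A ^ 2 * W := by
        refine mul_le_mul_of_nonneg_right ?_ hW0
        nlinarith
      linarith
    exact_mod_cast h3
  · calc u.den ≤ A * W := hsW
      _ ≤ (m + 2) * A ^ 2 * W := by
        refine Nat.mul_le_mul_right _ ?_
        calc A ≤ A ^ 2 := hAA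
          _ ≤ (m + 2) * A ^ 2 := Nat.le_mul_of_pos_left _ (by omega)

end Pool.Agent.TH853.Reg
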