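import Pool.Agent.TH853.Reg.Values
import Pool.Agent.H537R6.Asm2
import Pool.Agent.H537R6.U_SCL
import Pool.Agent.H537R6.U_RAD
import Pool.Agent.H537R6.U_MAT
import Pool.Agent.H537R6.U_VDM
import Pool.Agent.H537R6.U_PAD
import Pool.Agent.H537R6.U_LOG
import Pool.Agent.H537R6.U_NU2

set_option autoImplicit false

/-!
# The number of rational roots of programs with one register
-/

namespace Pool.Agent.TH853.Reg

open Polynomial Pool.Agent.H537R6

/-- the final inequality -/
theorem numeric {K n e b t s : ℕ} (he : 1 ≤ e)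
    (ht : t ≤ K * (bb n e b * (Nat.log 2 (bb n e b) + 1))) (hs : s ≤ t + n * e) :
    s ≤ (70 * K + 1) * (e ^ 3 * (b + 1) * (n + 1) ^ 2 *
      (Nat.log 2 (e ^ 3 * (b + 1) * (n + 1) ^ 2) + 1)) := by
  obtain ⟨M, hM⟩ : ∃ M, M = e ^ 3 * (b + 1) * (n + 1) ^ 2 := ⟨_, rfl⟩
  rw [← hM]
  obtain ⟨N, hN⟩ : ∃ N, N = (b + 1) * (n + 1) := ⟨_, rfl⟩
  have hN1 : 1 ≤ N := by
    rw [hN]
    exact Nat.mul_pos (by omega) (by omega)
  have hMN : M = e ^ 2 * N * (e * (n + 1)) := by
    rw [hM, hN]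
    ring
  have hbx : bx n e b ≤ 4 * (e * N) := by
    have h1 : b * (n + 2) + n + 1 ≤ 2 * N := by
      rw [hN]
      nlinarith
    have h2 : N ≤ e * N := Nat.le_mul_of_pos_left _ he
    have h3 : e ≤ e * N := Nat.le_mul_of_pos_right _ hN1
    rw [bx]
    omega
  have he2 : e ≤ e ^ 2 := by nlinarith
  have hbc : bc n e b ≤ 14 * (e ^ 2 * N) := by
    have h1 : bx n e b * e ≤ 4 * (e ^ 2 * N) := by
      calc bx n e b * e ≤ 4 * (e * N) * e := Nat.mul_le_mul_right _ hbx
        _ = 4 * (e ^ 2 * N) := by ring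
    have h2 : e ≤ e ^ 2 * N := he2.trans (Nat.le_mul_of_pos_right _ hN1)
    have h3 : b + 1 ≤ N := by
      rw [hN]
      exact Nat.le_mul_of_pos_right _ (by omega)
    have h4 : N ≤ e ^ 2 * N := Nat.le_mul_of_pos_left _ (by positivity)
    have h5 : bc n e b = 3 * e + 1 + 2 * b + 2 * (bx n e b * e) := rfl
    omega
  have hbb : bb n e b ≤ 14 * M := by
    have h1 : n * e + 1 ≤ e * (n + 1) := by nlinarith
    calc bb n e b = bc n e b * (n * e + 1) := rfl
      _ ≤ 14 * (e ^ 2 * N) * (e * (n + 1)) := Nat.mul_le_mul hbc h1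
      _ = 14 * M := by rw [hMN]; ring
  have hM1 : 0 < M := by
    rw [hM]
    have he0 : 0 < e := he
    positivity
  have hlog : Nat.log 2 (bb n e b) ≤ Nat.log 2 M + 4 := by
    have h1 : Nat.log 2 (M * 2 ^ 4) = Nat.log 2 M + 4 := by
      rw [pow_succ, pow_succ, pow_succ, pow_succ, pow_zero, one_mul, ← mul_assoc, ← mul_assoc,
        ← mul_assoc, Nat.log_mul_base (by norm_num) (by omega),
        Nat.log_mul_base (by norm_num) (by omega), Nat.log_mul_base (by norm_num) (by omega),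
        Nat.log_mul_base (by norm_num) (by omega)]
    rw [← h1]
    exact Nat.log_mono_right (by omega)
  have h1 : K * (bb n e b * (Nat.log 2 (bb n e b) + 1)) ≤
      K * (14 * M * (5 * (Nat.log 2 M + 1))) := by
    refine Nat.mul_le_mul_left _ (Nat.mul_le_mul hbb ?_)
    omega
  have h2 : n * e ≤ M := by
    have h3 : n * e ≤ e * (n + 1) := by nlinarith
    refine h3.trans ?_
    rw [hMN]
    exact Nat.le_mul_of_pos_left _ (by positivity)
  have h3 : M ≤ M * (Nat.log 2 M + 1) := Nat.le_mul_of_pos_right _ (by omega)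
  have h4 : K * (14 * M * (5 * (Nat.log 2 M + 1))) = 70 * K * (M * (Nat.log 2 M + 1)) := by ring
  have h5 : (70 * K + 1) * (M * (Nat.log 2 M + 1)) =
      70 * K * (M * (Nat.log 2 M + 1)) + M * (Nat.log 2 M + 1) := by ring
  rw [h5]
  omega

variable {n e b : ℕ} {y : ℕ → ℤ[X]} {P : ℕ → ℤ[X][X]}

theorem IsReg.y_ne (h : IsReg n e b y P) : y n ≠ 0 := by
  intro h0
  have h1 : ((1 : ℚ) + (n : ℚ) * e) * (e * 2 ^ b) + 1 ≤
      |((1 : ℚ) + (n : ℚ) * e) * (e * 2 ^ b) + 1| := le_abs_self _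
  have h2 := h.arch_ne h1
  rw [h0, map_zero] at h2
  exact h2 rfl

theorem card_aroots (f : ℤ[X]) : (f.aroots ℚ).toFinset.card ≤ f.natDegree := by
  refine (Multiset.toFinset_card_le _).trans ?_
  exact (card_roots' _).trans natDegree_map_le

theorem main : ∃ K : ℕ, ∀ (n e b : ℕ) (y : ℕ → ℤ[X]) (P : ℕ → ℤ[X][X]), IsReg n e b y P →
    {x : ℚ | aeval x (y n) = 0}.Finite ∧ {x : ℚ | aeval x (y n) = 0}.ncard ≤
      K * (e ^ 3 * (b + 1) * (n + 1) ^ 2 *
        (Nat.log 2 (e ^ 3 * (b + 1) * (n + 1) ^ 2) + 1)) := by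
  classical
  obtain ⟨K, hK⟩ := u_FI2 u_SCL u_RAD u_MAT (u_PAD u_VDM) u_LOG u_NU2
  refine ⟨70 * K + 1, fun n e b y P h => ?_⟩
  have he := h.e_pos
  have hy := h.y_ne
  obtain ⟨T, hT⟩ : ∃ T : Finset ℚ, T = ((y n).aroots ℚ).toFinset := ⟨_, rfl⟩
  have hmem : ∀ x : ℚ, x ∈ T ↔ aeval x (y n) = 0 := by
    intro x
    rw [hT, Multiset.mem_toFinset, mem_aroots]
    exact ⟨fun h => h.2, fun h => ⟨hy, h⟩⟩
  have hset : {x : ℚ | aeval x (y n) = 0} = ↑T := by
    ext x
    rw [Finset.mem_coe, hmem]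
    rfl
  rw [hset]
  refine ⟨T.finite_toSet, ?_⟩
  rw [Set.ncard_coe_finset]
  obtain ⟨S, hS⟩ : ∃ S : Finset ℚ,
      S = T.filter fun x => ∀ k < n, aeval x ((P k).leadingCoeff) ≠ 0 := ⟨_, rfl⟩
  have hS1 : ∀ x ∈ S, aeval x (y n) = 0 := fun x hx => by
    rw [hS, Finset.mem_filter] at hx
    exact (hmem x).1 hx.1
  have hS2 : ∀ x ∈ S, ∀ k < n, aeval x ((P k).leadingCoeff) ≠ 0 := fun x hx => by
    rw [hS, Finset.mem_filter] at hx
    exact hx.2
  have hSx : ∀ x ∈ S, HB (2 ^ bx n e b) x := fun x hx => h.root_hb (hS1 x hx)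
  have hSy : ∀ k ≤ n, ∀ x ∈ S, HB (2 ^ (bc n e b * n)) (aeval x (y k)) := by
    intro k hk x hx
    have h1 := h.reg_hb (hS1 x hx) (hS2 x hx) (n - k) (by omega)
    rw [show n - (n - k) = k by omega] at h1
    exact h1.mono (Nat.pow_le_pow_right (by norm_num) (Nat.mul_le_mul_left _ (by omega)))
  have hreach : ∀ k ≤ n, Reach (Small S (bb n e b)) (y k) := by
    intro k
    induction k with
    | zero =>
      intro _
      exact reach_poly he hSx e (y 0) le_rfl h.he h.hy
    | succ k ih =>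
      intro hk
      rw [h.hs k (by omega)]
      refine reach_step he hSx (hSy k (by omega)) (ih (by omega)) e (P k) le_rfl
        (h.hPe k (by omega)) fun i => ⟨?_, h.hPC k (by omega) i⟩
      have := h.hPD k (by omega) i
      have := h.he
      omega
  obtain ⟨L, g, hg1, hg2, hg3⟩ := (hreach n le_rfl).slp
  have hb1 : 1 ≤ bb n e b := by
    have h1 := bc_le_bb n e b
    have h5 : bc n e b = 3 * e + 1 + 2 * b + 2 * (bx n e b * e) := rfl
    omega
  have hcard := hK L (bb n e b) g S hg1 (by rw [hg2]; exact hy) hb1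
    (fun x hx => by rw [hg2]; exact hS1 x hx) (fun x hx k hk => hg3 k hk x hx)
  refine numeric he hcard ?_
  have hsub : T ⊆ S ∪ (Finset.range n).biUnion fun k =>
      (((P k).leadingCoeff).aroots ℚ).toFinset := by
    intro x hx
    rw [Finset.mem_union]
    by_cases hxS : x ∈ S
    · exact Or.inl hxS
    · right
      rw [hS, Finset.mem_filter] at hxS
      push Not at hxS
      obtain ⟨k, hk, hk0⟩ := hxS hx
      rw [Finset.mem_biUnion]
      refine ⟨k, Finset.mem_range.2 hk, ?_⟩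
      rw [Multiset.mem_toFinset, mem_aroots]
      exact ⟨leadingCoeff_ne_zero.2 (h.P_ne hk), hk0⟩
  refine (Finset.card_le_card hsub).trans ((Finset.card_union_le _ _).trans ?_)
  refine Nat.add_le_add_left ?_ _
  refine Finset.card_biUnion_le.trans ?_
  have h1 : ∀ k ∈ Finset.range n, ((((P k).leadingCoeff).aroots ℚ).toFinset).card ≤ e := by
    intro k hk
    rw [Finset.mem_range] at hk
    refine (card_aroots _).trans ?_
    have := h.hPD k hk (P k).natDegree
    have := h.he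
    have h2 : ((P k).leadingCoeff).natDegree = ((P k).coeff (P k).natDegree).natDegree := rfl
    omega
  have h2 := Finset.sum_le_card_nsmul _ _ _ h1
  rwa [Finset.card_range, smul_eq_mul] at h2

end Pool.Agent.TH853.Reg
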