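import Pool.Agent.TH853.Reg.Program

set_option autoImplicit false

/-!
# Rational roots of programs with one register have small height
-/

namespace Pool.Agent.TH853.Reg

open Polynomial

/-- a program with one register -/
structure IsReg (n e b : ℕ) (y : ℕ → ℤ[X]) (P : ℕ → ℤ[X][X]) : Prop where
  h1 : 1 ≤ (y 0).natDegree
  he : (y 0).natDegree ≤ e
  hy : CB (2 ^ b) (y 0)
  hP1 : ∀ k < n, 1 ≤ (P k).natDegree
  hPe : ∀ k < n, (P k).natDegree ≤ e
  hPD : ∀ k < n, ∀ i, ((P k).coeff i).natDegree < (y 0).natDegree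
  hPC : ∀ k < n, ∀ i, CB (2 ^ b) ((P k).coeff i)
  hs : ∀ k < n, y (k + 1) = (P k).eval (y k)

variable {n e b : ℕ} {y : ℕ → ℤ[X]} {P : ℕ → ℤ[X][X]}

theorem IsReg.P_ne (h : IsReg n e b y P) {k : ℕ} (hk : k < n) : P k ≠ 0 := by
  intro h0
  have := h.hP1 k hk
  rw [h0] at this
  simp at this

/-- archimedean escape -/
theorem IsReg.arch (h : IsReg n e b y P) {x : ℚ}
    (hx : (1 + (n : ℚ) * e) * (e * 2 ^ b) + 1 ≤ |x|) : ∀ k ≤ n,
    |x| ^ ((y 0).natDegree - 1) * (|x| - (1 + (k : ℚ) * e) * (e * 2 ^ b)) ≤ |aeval x (y k)| := by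
  obtain ⟨D, hD⟩ : ∃ D, (y 0).natDegree = D + 1 := ⟨(y 0).natDegree - 1, by have := h.h1; omega⟩
  have hD' : (y 0).natDegree - 1 = D := by omega
  have hDe : D + 1 ≤ e := hD ▸ h.he
  have hDeQ : (D : ℚ) + 1 ≤ e := by exact_mod_cast hDe
  rw [hD']
  obtain ⟨H, hH⟩ : ∃ H : ℚ, H = 2 ^ b := ⟨_, rfl⟩
  have hHn : ((2 ^ b : ℕ) : ℚ) = H := by rw [hH]; push_cast; rfl
  rw [← hH] at hx ⊢
  have hH1 : 1 ≤ H := by rw [hH]; exact one_le_pow₀ (by norm_num)
  have he1 : (1 : ℚ) ≤ e := by
    have : 1 ≤ e := by omega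
    exact_mod_cast this
  have hn0 : (0 : ℚ) ≤ n := Nat.cast_nonneg n
  have hx1 : 1 ≤ |x| := by
    have : 0 ≤ (1 + (n : ℚ) * e) * (e * H) := by positivity
    linarith
  intro k
  induction k with
  | zero =>
    intro _
    have h2 := arch_lb hD h.hy hx1
    rw [hHn] at h2
    refine le_trans ?_ h2
    have h3 : 0 ≤ |x| ^ D := by positivity
    refine mul_le_mul_of_nonneg_left ?_ h3
    have h4 : ((D : ℚ) + 1) * H ≤ e * H := mul_le_mul_of_nonneg_right hDeQ (by linarith)
    push_cast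
    linarith
  | succ k ih =>
    intro hk
    have ih := ih (by omega)
    have hkn : k < n := by omega
    obtain ⟨m, hm⟩ : ∃ m, m = (P k).natDegree := ⟨_, rfl⟩
    have hm1 : 1 ≤ m := hm ▸ h.hP1 k hkn
    have hme : m ≤ e := hm ▸ h.hPe k hkn
    have hmeQ : (m : ℚ) ≤ e := by exact_mod_cast hme
    have hknQ : ((k : ℚ) + 1) ≤ n := by exact_mod_cast hkn
    have hk0 : (0 : ℚ) ≤ k := Nat.cast_nonneg k
    obtain ⟨E, hE⟩ : ∃ E : ℚ, E = e * H * |x| ^ D := ⟨_, rfl⟩
    have hxD : (1 : ℚ) ≤ |x| ^ D := one_le_pow₀ hx1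
    have hE0 : 0 ≤ E := by rw [hE]; positivity
    have ha : ∀ i < m, |aeval x ((P k).coeff i)| ≤ E := by
      intro i _
      have h2 := arch_ub (D := D) (by have := h.hPD k hkn i; omega) (h.hPC k hkn i) hx1
      rw [hHn] at h2
      refine h2.trans ?_
      rw [hE]
      refine mul_le_mul_of_nonneg_right ?_ (by positivity)
      exact mul_le_mul_of_nonneg_right hDeQ (by linarith)
    have ham : 1 ≤ |aeval x ((P k).coeff m)| := by
      refine arch_one (D := e) (H := 2 ^ b) ?_ ?_ (h.hPC k hkn m) ?_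
      · rw [hm]
        exact leadingCoeff_ne_zero.2 (h.P_ne hkn)
      · have := h.hPD k hkn m
        have := h.he
        omega
      · rw [hHn]
        have h3 : (e : ℚ) * H ≤ (1 + (n : ℚ) * e) * (e * H) := by
          have h4 : 0 ≤ (e : ℚ) * H := by positivity
          have h5 : 0 ≤ (n : ℚ) * e := by positivity
          nlinarith
        linarith
    -- the size of the register
    have hbig : (e : ℚ) * (e * H) + 1 ≤ |x| - (1 + (k : ℚ) * e) * (e * H) := by
      have h4 : 0 ≤ (e : ℚ) * (e * H) := by positivity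
      have h5 : (1 + ((k : ℚ) + 1) * e) * (e * H) ≤ (1 + (n : ℚ) * e) * (e * H) := by
        refine mul_le_mul_of_nonneg_right ?_ (by positivity)
        have : ((k : ℚ) + 1) * e ≤ n * e := mul_le_mul_of_nonneg_right hknQ (by linarith)
        linarith
      have h6 : (1 + ((k : ℚ) + 1) * e) * (e * H) = (1 + (k : ℚ) * e) * (e * H) + e * (e * H) := by
        ring
      linarith
    have hu1 : 1 ≤ |aeval x (y k)| := by
      refine le_trans ?_ ih
      have h4 : 0 ≤ (e : ℚ) * (e * H) := by positivity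
      have h5 : 1 ≤ |x| - (1 + (k : ℚ) * e) * (e * H) := by linarith
      nlinarith
    have huE : (m : ℚ) * E ≤ |aeval x (y k)| := by
      refine le_trans ?_ ih
      rw [hE]
      calc (m : ℚ) * (e * H * |x| ^ D) ≤ e * (e * H * |x| ^ D) :=
            mul_le_mul_of_nonneg_right hmeQ (by positivity)
        _ = |x| ^ D * (e * (e * H)) := by ring
        _ ≤ _ := mul_le_mul_of_nonneg_left (by linarith) (by positivity)
    have h7 := arch_step hm1 hE0 ha ham hu1 huE
    rw [h.hs k hkn, aeval_step (P k) (y k) x (m + 1) (by omega)]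
    refine le_trans ?_ h7
    have h8 : (m : ℚ) * E ≤ |x| ^ D * (e * (e * H)) := by
      rw [hE]
      calc (m : ℚ) * (e * H * |x| ^ D) ≤ e * (e * H * |x| ^ D) :=
            mul_le_mul_of_nonneg_right hmeQ (by positivity)
        _ = |x| ^ D * (e * (e * H)) := by ring
    have h9 : |x| ^ D * (|x| - (1 + ((k + 1 : ℕ) : ℚ) * e) * (e * H)) =
        |x| ^ D * (|x| - (1 + (k : ℚ) * e) * (e * H)) - |x| ^ D * (e * (e * H)) := by
      push_cast
      ring
    rw [h9]
    linarith

theorem IsReg.arch_ne (h : IsReg n e b y P) {x : ℚ}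
    (hx : (1 + (n : ℚ) * e) * (e * 2 ^ b) + 1 ≤ |x|) : aeval x (y n) ≠ 0 := by
  intro h0
  have h1 := h.arch hx n le_rfl
  rw [h0, abs_zero] at h1
  have hx1 : 1 ≤ |x| := by
    have : 0 ≤ (1 + (n : ℚ) * e) * (e * 2 ^ b) := by positivity
    linarith
  have h2 : (1 : ℚ) ≤ |x| ^ ((y 0).natDegree - 1) := one_le_pow₀ hx1
  nlinarith

/-- the leading coefficients -/
noncomputable def lcs (y : ℕ → ℤ[X]) (P : ℕ → ℤ[X][X]) : ℕ → ℤ
  | 0 => (y 0).leadingCoeff
  | k + 1 => ((P k).leadingCoeff).leadingCoeff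

theorem IsReg.lcs_ne (h : IsReg n e b y P) {k : ℕ} (hk : k ≤ n) : lcs y P k ≠ 0 := by
  cases k with
  | zero =>
    refine leadingCoeff_ne_zero.2 ?_
    intro h0
    have := h.h1
    rw [h0] at this
    simp at this
  | succ k =>
    exact leadingCoeff_ne_zero.2 (leadingCoeff_ne_zero.2 (h.P_ne (by omega)))

theorem IsReg.lcs_le (h : IsReg n e b y P) {k : ℕ} (hk : k ≤ n) :
    (lcs y P k).natAbs ≤ 2 ^ b := by
  cases k with
  | zero => exact h.hy _
  | succ k => exact h.hPC k (by omega) _ _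

theorem IsReg.pad (h : IsReg n e b y P) (p : ℕ) [Fact p.Prime] {x : ℚ}
    (hx : 1 < padicNorm p x * padicNorm p ((∏ j ∈ Finset.range (n + 1), lcs y P j : ℤ) : ℚ)) :
    ∀ k ≤ n, padicNorm p x ^ (y 0).natDegree *
      padicNorm p ((∏ j ∈ Finset.range (k + 1), lcs y P j : ℤ) : ℚ) ≤
      padicNorm p (aeval x (y k)) := by
  obtain ⟨D, hD⟩ : ∃ D, (y 0).natDegree = D + 1 := ⟨(y 0).natDegree - 1, by have := h.h1; omega⟩
  -- partial products have larger norm
  have hmono : ∀ k ≤ n + 1, ∀ s ⊆ Finset.range (n + 1),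
      padicNorm p ((∏ j ∈ Finset.range (n + 1), lcs y P j : ℤ) : ℚ) ≤
      padicNorm p ((∏ j ∈ s, lcs y P j : ℤ) : ℚ) := by
    intro k _ s hs
    rw [← Finset.prod_sdiff hs]
    push_cast
    rw [padicNorm.mul]
    have h1 : padicNorm p (∏ j ∈ Finset.range (n + 1) \ s, (lcs y P j : ℚ)) ≤ 1 := by
      have := pad_int_le_one (p := p) (∏ j ∈ Finset.range (n + 1) \ s, lcs y P j)
      push_cast at this
      exact this
    calc _ ≤ 1 * padicNorm p (∏ j ∈ s, (lcs y P j : ℚ)) :=
          mul_le_mul_of_nonneg_right h1 (padicNorm.nonneg _)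
      _ = _ := one_mul _
  obtain ⟨X', hX⟩ : ∃ X' : ℚ, X' = padicNorm p x := ⟨_, rfl⟩
  rw [← hX] at hx ⊢
  have hC1 : padicNorm p ((∏ j ∈ Finset.range (n + 1), lcs y P j : ℤ) : ℚ) ≤ 1 :=
    pad_int_le_one _
  have hX0 : 0 ≤ X' := hX ▸ padicNorm.nonneg x
  have hX1 : 1 < X' := by
    by_contra hcon
    push Not at hcon
    have : X' * padicNorm p ((∏ j ∈ Finset.range (n + 1), lcs y P j : ℤ) : ℚ) ≤ 1 * 1 :=
      mul_le_mul hcon hC1 (padicNorm.nonneg _) zero_le_one
    linarith
  have hone : ∀ s ⊆ Finset.range (n + 1),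
      1 < X' * padicNorm p ((∏ j ∈ s, lcs y P j : ℤ) : ℚ) := fun s hs =>
    hx.trans_le (mul_le_mul_of_nonneg_left (hmono 0 (by omega) s hs) hX0)
  have hlc : ∀ k ≤ n, 1 < X' * padicNorm p (lcs y P k : ℚ) := by
    intro k hk
    have := hone {k} (by simpa using Nat.lt_succ_of_le hk)
    simpa using this
  intro k
  induction k with
  | zero =>
    intro _
    have h1 := hlc 0 (Nat.zero_le n)
    have h2 := pad_eq (p := p) (f := y 0) (x := x) (hX ▸ hX1.le) (by
      rw [← hX, mul_comm]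
      exact h1)
    rw [h2, ← hX]
    simp only [zero_add, Finset.prod_range_one]
    rw [mul_comm]
    rfl
  | succ k ih =>
    intro hk
    have ih := ih (by omega)
    have hkn : k < n := by omega
    obtain ⟨m, hm⟩ : ∃ m, m = (P k).natDegree := ⟨_, rfl⟩
    have hm1 : 1 ≤ m := hm ▸ h.hP1 k hkn
    have hX1' : 1 ≤ padicNorm p x := hX ▸ hX1.le
    obtain ⟨G, hG⟩ : ∃ G : ℚ, G = padicNorm p ((∏ j ∈ Finset.range (k + 1), lcs y P j : ℤ) : ℚ) :=
      ⟨_, rfl⟩
    obtain ⟨c, hc⟩ : ∃ c : ℚ, c = padicNorm p (lcs y P (k + 1) : ℚ) := ⟨_, rfl⟩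
    have hG2 : padicNorm p ((∏ j ∈ Finset.range (k + 1 + 1), lcs y P j : ℤ) : ℚ) = G * c := by
      rw [Finset.prod_range_succ _ (k + 1)]
      push_cast
      rw [padicNorm.mul, hG, hc]
      push_cast
      rfl
    have hGc : 1 < X' * (G * c) := by
      rw [← hG2]
      exact hone _ (Finset.range_subset_range.2 (by omega))
    rw [← hG, hD] at ih
    rw [hG2, hD]
    have hG0 : 0 ≤ G := hG ▸ padicNorm.nonneg _
    have hc0 : 0 ≤ c := hc ▸ padicNorm.nonneg _
    have hcX : 1 < c * X' := by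
      rw [mul_comm, hc]
      exact hlc (k + 1) hk
    have hXD : (1 : ℚ) ≤ X' ^ D := one_le_pow₀ hX1.le
    -- leading coefficient
    have ham : padicNorm p (aeval x ((P k).coeff m)) = c * X' ^ ((P k).coeff m).natDegree := by
      have := pad_eq (p := p) (f := (P k).coeff m) (x := x) hX1' (by
        rw [← hX, hm]
        rw [hc] at hcX
        exact hcX)
      rw [this, ← hX, hc, hm]
      rfl
    have ham' : c ≤ padicNorm p (aeval x ((P k).coeff m)) := by
      rw [ham]
      exact le_mul_of_one_le_right hc0 (one_le_pow₀ hX1.le)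
    have hu1 : 1 ≤ padicNorm p (aeval x (y k)) := by
      refine le_trans ?_ ih
      have hc1 : c ≤ 1 := hc ▸ pad_int_le_one _
      have h2 : X' * (G * c) ≤ X' * G := by
        have : G * c ≤ G * 1 := mul_le_mul_of_nonneg_left hc1 hG0
        nlinarith
      have h3 : X' ^ (D + 1) * G = X' ^ D * (X' * G) := by ring
      rw [h3]
      have h4 : 1 ≤ X' * G := by linarith
      nlinarith
    have hTu : X' ^ D < padicNorm p (aeval x ((P k).coeff m)) * padicNorm p (aeval x (y k)) := by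
      have h2 : c * (X' ^ (D + 1) * G) ≤
          padicNorm p (aeval x ((P k).coeff m)) * padicNorm p (aeval x (y k)) :=
        mul_le_mul ham' ih (by positivity) (padicNorm.nonneg _)
      refine lt_of_lt_of_le ?_ h2
      have h3 : c * (X' ^ (D + 1) * G) = X' ^ D * (X' * (G * c)) := by ring
      rw [h3]
      nlinarith
    have h7 := pad_step (p := p) hm1 (T := X' ^ D) (by positivity)
      (a := fun i => aeval x ((P k).coeff i)) (u := aeval x (y k)) (fun i _ => by
        have := pad_ub (p := p) (D := D) (f := (P k).coeff i) (by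
          have := h.hPD k hkn i
          omega) hX1'
        rwa [← hX] at this) hu1 hTu
    rw [h.hs k hkn, aeval_step (P k) (y k) x (m + 1) (by omega), h7]
    calc X' ^ (D + 1) * (G * c) = c * (X' ^ (D + 1) * G) := by ring
      _ ≤ padicNorm p (aeval x ((P k).coeff m)) * padicNorm p (aeval x (y k)) :=
        mul_le_mul ham' ih (by positivity) (padicNorm.nonneg _)
      _ ≤ padicNorm p (aeval x ((P k).coeff m)) * padicNorm p (aeval x (y k)) ^ m := by
        refine mul_le_mul_of_nonneg_left ?_ (padicNorm.nonneg _)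
        exact le_self_pow₀ hu1 (by omega)

/-- a rational number which is integral at every prime is an integer -/
theorem den_eq_one {z : ℚ} (h : ∀ p : ℕ, ∀ _ : Fact p.Prime, padicNorm p z ≤ 1) : z.den = 1 := by
  by_contra hcon
  obtain ⟨p, hp, hpd⟩ := Nat.exists_prime_and_dvd hcon
  have : Fact p.Prime := ⟨hp⟩
  have h1 := h p inferInstance
  have hz : z ≠ 0 := by
    rintro rfl
    simp at hcon
  have hnum : ¬ (p : ℤ) ∣ z.num := by
    intro h2
    have h3 : p ∣ z.num.natAbs := Int.natCast_dvd.1 h2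
    have h4 := Nat.dvd_gcd h3 hpd
    have h5 : Nat.gcd z.num.natAbs z.den = 1 := z.reduced
    rw [h5] at h4
    exact hp.one_lt.ne' (Nat.dvd_one.1 h4)
  have h2 : padicNorm p z * padicNorm p (z.den : ℚ) = padicNorm p (z.num : ℚ) := by
    rw [← padicNorm.mul, Rat.mul_den_eq_num]
  have h3 : padicNorm p (z.num : ℚ) = 1 := by
    rw [padicNorm.int_eq_one_iff]
    exact hnum
  have h4 : padicNorm p (z.den : ℚ) < 1 := by
    rw [padicNorm.nat_lt_one_iff]
    exact hpd
  have h5 : 0 ≤ padicNorm p (z.den : ℚ) := padicNorm.nonneg _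
  rw [h3] at h2
  nlinarith [padicNorm.nonneg (p := p) z]

theorem IsReg.den_le (h : IsReg n e b y P) {x : ℚ} (hx : aeval x (y n) = 0) :
    x.den ≤ 2 ^ (b * (n + 1)) := by
  obtain ⟨Cc, hC⟩ : ∃ Cc : ℤ, Cc = ∏ j ∈ Finset.range (n + 1), lcs y P j := ⟨_, rfl⟩
  have hC0 : Cc ≠ 0 := by
    rw [hC]
    refine Finset.prod_ne_zero_iff.2 fun j hj => ?_
    rw [Finset.mem_range] at hj
    exact h.lcs_ne (by omega)
  have h1 : (x * Cc).den = 1 := by
    refine den_eq_one fun p hp => ?_
    by_contra hcon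
    push Not at hcon
    rw [padicNorm.mul, hC] at hcon
    have h2 := h.pad p hcon n le_rfl
    rw [hx, padicNorm.zero] at h2
    have h3 : 0 < padicNorm p x ^ (y 0).natDegree *
        padicNorm p ((∏ j ∈ Finset.range (n + 1), lcs y P j : ℤ) : ℚ) := by
      have hx0 : 0 < padicNorm p x := by
        rcases (padicNorm.nonneg (p := p) x).lt_or_eq with h4 | h4
        · exact h4
        · rw [← h4, zero_mul] at hcon
          linarith
      have hc0 : 0 < padicNorm p ((∏ j ∈ Finset.range (n + 1), lcs y P j : ℤ) : ℚ) := by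
        rcases (padicNorm.nonneg (p := p)
          ((∏ j ∈ Finset.range (n + 1), lcs y P j : ℤ) : ℚ)).lt_or_eq with h4 | h4
        · exact h4
        · rw [← h4, mul_zero] at hcon
          linarith
      positivity
    linarith
  have h2 : x.num * Cc = (x * Cc).num * x.den := by
    have h3 : ((x * Cc).num : ℚ) = x * Cc := by
      have := Rat.mul_den_eq_num (x * Cc)
      rw [h1] at this
      simpa using this.symm
    have h4 : ((x.num * Cc : ℤ) : ℚ) = (((x * Cc).num * x.den : ℤ) : ℚ) := by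
      push_cast
      rw [h3, ← Rat.mul_den_eq_num x]
      simp only [Rat.mul_den_eq_num]
      have : (x.num : ℚ) = x * x.den := (Rat.mul_den_eq_num x).symm
      rw [this]
      ring
    exact_mod_cast h4
  have hcop : IsCoprime (x.num) (x.den : ℤ) := by
    rw [Int.isCoprime_iff_nat_coprime]
    simpa using x.reduced
  have h3 : (x.den : ℤ) ∣ Cc :=
    hcop.symm.dvd_of_dvd_mul_left ⟨(x * Cc).num, by rw [h2]; ring⟩
  have h4 : x.den ∣ Cc.natAbs := by
    have := Int.natAbs_dvd_natAbs.2 h3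
    simpa using this
  have h5 : x.den ≤ Cc.natAbs := Nat.le_of_dvd (Int.natAbs_pos.2 hC0) h4
  refine h5.trans ?_
  have h7 : (∏ j ∈ Finset.range (n + 1), lcs y P j).natAbs =
      ∏ j ∈ Finset.range (n + 1), (lcs y P j).natAbs := map_prod Int.natAbsHom _ _
  rw [hC, h7]
  have h6 := Finset.prod_le_pow_card (Finset.range (n + 1)) (fun j => (lcs y P j).natAbs) (2 ^ b)
    (fun j hj => by
      rw [Finset.mem_range] at hj
      exact h.lcs_le (by omega))
  rw [Finset.card_range, ← pow_mul] at h6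
  exact h6

end Pool.Agent.TH853.Reg
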