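import Pool.Agent.TH853.Reg.Escape
import Pool.Agent.H537R6.Defs2

set_option autoImplicit false

/-!
# Straight-line programs all of whose results have a given property
-/

namespace Pool.Agent.TH853.Reg

open Polynomial Pool.Agent.H537R6

/-- `f` is computed by a straight-line program all of whose results satisfy `Q` -/
inductive Reach (Q : ℤ[X] → Prop) : ℤ[X] → Prop
  | var : Q X → Reach Q X
  | const (a : ℤ) : Q (C a) → Reach Q (C a)
  | add (f g : ℤ[X]) : Reach Q f → Reach Q g → Q (f + g) → Reach Q (f + g)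
  | mul (f g : ℤ[X]) : Reach Q f → Reach Q g → Q (f * g) → Reach Q (f * g)

/-- concatenation of two programs -/
theorem concat {Q : ℤ[X] → Prop} {L₁ L₂ : ℕ} {g₁ g₂ : ℕ → ℤ[X]} (h₁ : IsSLP L₁ g₁)
    (h₂ : IsSLP L₂ g₂) (q₁ : ∀ k ≤ L₁, Q (g₁ k)) (q₂ : ∀ k ≤ L₂, Q (g₂ k)) {h : ℤ[X]}
    (hh : h = g₁ L₁ + g₂ L₂ ∨ h = g₁ L₁ - g₂ L₂ ∨ h = g₁ L₁ * g₂ L₂) (hQ : Q h) :
    ∃ (L : ℕ) (g : ℕ → ℤ[X]), IsSLP L g ∧ g L = h ∧ ∀ k ≤ L, Q (g k) := by
  obtain ⟨g, hg⟩ : ∃ g : ℕ → ℤ[X], g = fun k => if k ≤ L₁ then g₁ k else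
    if k ≤ L₁ + 1 + L₂ then g₂ (k - (L₁ + 1)) else h := ⟨_, rfl⟩
  have e1 : ∀ k ≤ L₁, g k = g₁ k := by
    intro k hk
    rw [hg]
    simp [hk]
  have e2 : ∀ k ≤ L₂, g (k + (L₁ + 1)) = g₂ k := by
    intro k hk
    rw [hg]
    have h1 : ¬ k + (L₁ + 1) ≤ L₁ := by omega
    have h2 : k + (L₁ + 1) ≤ L₁ + 1 + L₂ := by omega
    have h3 : k + (L₁ + 1) - (L₁ + 1) = k := by omega
    simp only [h1, h2, if_true, if_false, h3]
  have e3 : g (L₁ + L₂ + 2) = h := by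
    rw [hg]
    have h1 : ¬ L₁ + L₂ + 2 ≤ L₁ := by omega
    have h2 : ¬ L₁ + L₂ + 2 ≤ L₁ + 1 + L₂ := by omega
    simp only [h1, h2, if_false]
  refine ⟨L₁ + L₂ + 2, g, ?_, e3, ?_⟩
  · intro k hk
    rcases Nat.lt_or_ge L₁ k with hk1 | hk1
    · rcases Nat.lt_or_ge (L₁ + 1 + L₂) k with hk2 | hk2
      · have hk3 : k = L₁ + L₂ + 2 := by omega
        subst hk3
        right; right
        refine ⟨L₁, by omega, L₂ + (L₁ + 1), by omega, ?_⟩
        rw [e3, e1 L₁ le_rfl, e2 L₂ le_rfl]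
        exact hh
      · obtain ⟨j, hj⟩ : ∃ j, k = j + (L₁ + 1) := ⟨k - (L₁ + 1), by omega⟩
        subst hj
        have hj2 : j ≤ L₂ := by omega
        rw [e2 j hj2]
        rcases h₂ j hj2 with h4 | h4 | ⟨i, hi, i', hi', h4⟩
        · exact Or.inl h4
        · exact Or.inr (Or.inl h4)
        · right; right
          refine ⟨i + (L₁ + 1), by omega, i' + (L₁ + 1), by omega, ?_⟩
          rw [e2 i (by omega), e2 i' (by omega)]
          exact h4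
    · rw [e1 k hk1]
      rcases h₁ k hk1 with h4 | h4 | ⟨i, hi, i', hi', h4⟩
      · exact Or.inl h4
      · exact Or.inr (Or.inl h4)
      · right; right
        refine ⟨i, hi, i', hi', ?_⟩
        rw [e1 i (by omega), e1 i' (by omega)]
        exact h4
  · intro k hk
    rcases Nat.lt_or_ge L₁ k with hk1 | hk1
    · rcases Nat.lt_or_ge (L₁ + 1 + L₂) k with hk2 | hk2
      · have hk3 : k = L₁ + L₂ + 2 := by omega
        rw [hk3, e3]
        exact hQ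
      · obtain ⟨j, hj⟩ : ∃ j, k = j + (L₁ + 1) := ⟨k - (L₁ + 1), by omega⟩
        subst hj
        rw [e2 j (by omega)]
        exact q₂ j (by omega)
    · rw [e1 k hk1]
      exact q₁ k hk1

theorem Reach.slp {Q : ℤ[X] → Prop} {f : ℤ[X]} (h : Reach Q f) :
    ∃ (L : ℕ) (g : ℕ → ℤ[X]), IsSLP L g ∧ g L = f ∧ ∀ k ≤ L, Q (g k) := by
  induction h with
  | var hQ => exact ⟨0, fun _ => X, fun k _ => Or.inl rfl, rfl, fun k _ => hQ⟩
  | const a hQ => exact ⟨0, fun _ => C a, fun k _ => Or.inr (Or.inl ⟨a, rfl⟩), rfl, fun k _ => hQ⟩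
  | add f g _ _ hQ ih₁ ih₂ =>
    obtain ⟨L₁, g₁, a1, a2, a3⟩ := ih₁
    obtain ⟨L₂, g₂, b1, b2, b3⟩ := ih₂
    exact concat a1 b1 a3 b3 (Or.inl (by rw [a2, b2])) hQ
  | mul f g _ _ hQ ih₁ ih₂ =>
    obtain ⟨L₁, g₁, a1, a2, a3⟩ := ih₁
    obtain ⟨L₂, g₂, b1, b2, b3⟩ := ih₂
    exact concat a1 b1 a3 b3 (Or.inr (Or.inr (by rw [a2, b2]))) hQ

end Pool.Agent.TH853.Reg
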