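import Pool.Agent.TH853.Reg.Places

set_option autoImplicit false

/-!
# All the intermediate results have small height at the roots
-/

namespace Pool.Agent.TH853.Reg

open Polynomial Pool.Agent.H537R6

theorem self_le_two_pow (k : ℕ) : k + 1 ≤ 2 ^ k := Nat.lt_two_pow_self

/-- the integer numerator of the value of a polynomial -/
theorem val {d H B' : ℕ} {f : ℤ[X]} (hd : f.natDegree ≤ d) (hf : CB H f) {x : ℚ}
    (hx : HB B' x) : ∃ a : ℤ, aeval x f * (x.den : ℚ) ^ d = a ∧
      a.natAbs ≤ (d + 1) * (H * B' ^ d) := by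
  refine ⟨∑ j ∈ Finset.range (d + 1), f.coeff j * x.num ^ j * (x.den : ℤ) ^ (d - j), ?_, ?_⟩
  · rw [aeval_sum f x (d + 1) (by omega), Finset.sum_mul]
    push_cast
    refine Finset.sum_congr rfl fun j hj => ?_
    rw [Finset.mem_range] at hj
    have h1 : (x.num : ℚ) = x * x.den := (Rat.mul_den_eq_num x).symm
    have h2 : (x.den : ℚ) ^ d = (x.den : ℚ) ^ j * (x.den : ℚ) ^ (d - j) := by
      rw [← pow_add]
      congr 1
      omega
    rw [h1, h2, mul_pow]
    ring
  · refine (Int.natAbs_sum_le _ _).trans ?_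
    have h1 : ∀ j ∈ Finset.range (d + 1),
        (f.coeff j * x.num ^ j * (x.den : ℤ) ^ (d - j)).natAbs ≤ H * B' ^ d := by
      intro j hj
      rw [Finset.mem_range] at hj
      rw [Int.natAbs_mul, Int.natAbs_mul, Int.natAbs_pow, Int.natAbs_pow, Int.natAbs_natCast,
        mul_assoc]
      refine Nat.mul_le_mul (hf j) ?_
      have h2 : B' ^ d = B' ^ j * B' ^ (d - j) := by
        rw [← pow_add]
        congr 1
        omega
      rw [h2]
      exact Nat.mul_le_mul (Nat.pow_le_pow_left hx.1 _) (Nat.pow_le_pow_left hx.2 _)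
    have h2 := Finset.sum_le_card_nsmul _ _ _ h1
    rwa [Finset.card_range, smul_eq_mul] at h2

variable {n e b : ℕ} {y : ℕ → ℤ[X]} {P : ℕ → ℤ[X][X]}

/-- bit length of the roots -/
def bx (n e b : ℕ) : ℕ := b * (n + 2) + n + 2 * e

/-- bits lost in one step -/
def bc (n e b : ℕ) : ℕ := 3 * e + 1 + 2 * b + 2 * (bx n e b * e)

theorem IsReg.e_pos (h : IsReg n e b y P) : 1 ≤ e := h.h1.trans h.he

theorem IsReg.root_hb (h : IsReg n e b y P) {x : ℚ} (hx : aeval x (y n) = 0) :
    HB (2 ^ bx n e b) x := by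
  have h1 := h.den_le hx
  have he := h.e_pos
  have h2 : |x| < (1 + (n : ℚ) * e) * (e * 2 ^ b) + 1 := by
    by_contra hcon
    push Not at hcon
    exact h.arch_ne hcon hx
  have hR : ((1 + n * e) * (e * 2 ^ b) + 1 : ℕ) ≤ 2 ^ (b + n + 2 * e) := by
    have h3 : (1 + n * e) * e + 1 ≤ (n + 1) * ((e + 1) * (e + 1)) := by nlinarith
    have h4 : (n + 1) * ((e + 1) * (e + 1)) ≤ 2 ^ n * (2 ^ e * 2 ^ e) :=
      Nat.mul_le_mul (self_le_two_pow n)
        (Nat.mul_le_mul (self_le_two_pow e) (self_le_two_pow e))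
    have h5 : 1 ≤ 2 ^ b := Nat.one_le_two_pow
    calc (1 + n * e) * (e * 2 ^ b) + 1 ≤ (1 + n * e) * (e * 2 ^ b) + 2 ^ b := by omega
      _ = 2 ^ b * ((1 + n * e) * e + 1) := by ring
      _ ≤ 2 ^ b * (2 ^ n * (2 ^ e * 2 ^ e)) := Nat.mul_le_mul_left _ (h3.trans h4)
      _ = 2 ^ (b + n + 2 * e) := by
        rw [← pow_add, ← pow_add, ← pow_add]
        congr 1
        ring
  constructor
  · have h3 : ((x.num.natAbs : ℕ) : ℚ) = |x| * x.den := by
      have h2 : (x.num : ℚ) = x * x.den := by rw [Rat.mul_den_eq_num]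
      have h3 : ((x.num.natAbs : ℕ) : ℚ) = |(x.num : ℚ)| := by
        rw [← Int.cast_abs, Int.abs_eq_natAbs]
        simp
      rw [h3, h2, abs_mul, Nat.abs_cast]
    have h4 : ((x.num.natAbs : ℕ) : ℚ) ≤
        (((1 + n * e) * (e * 2 ^ b) + 1 : ℕ) : ℚ) * ((2 ^ (b * (n + 1)) : ℕ) : ℚ) := by
      rw [h3]
      refine mul_le_mul ?_ (by exact_mod_cast h1) (Nat.cast_nonneg _) (Nat.cast_nonneg _)
      push_cast
      exact h2.le
    have h5 : x.num.natAbs ≤ ((1 + n * e) * (e * 2 ^ b) + 1) * 2 ^ (b * (n + 1)) := by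
      exact_mod_cast h4
    refine h5.trans ((Nat.mul_le_mul_right _ hR).trans ?_)
    rw [← pow_add, bx]
    refine Nat.pow_le_pow_right (by norm_num) ?_
    have : b * (n + 2) = b * (n + 1) + b := by ring
    omega
  · refine h1.trans (Nat.pow_le_pow_right (by norm_num) ?_)
    rw [bx]
    have : b * (n + 2) = b * (n + 1) + b := by ring
    omega

/-- value of a small polynomial, with bits -/
theorem val2 {d X' : ℕ} {f : ℤ[X]} (hd : f.natDegree ≤ d) (hf : CB (2 ^ b) f) {x : ℚ}
    (hx : HB (2 ^ X') x) : ∃ a : ℤ, aeval x f * (x.den : ℚ) ^ d = a ∧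
      a.natAbs ≤ 2 ^ (d + b + X' * d) := by
  obtain ⟨a, h1, h2⟩ := val hd hf hx
  refine ⟨a, h1, h2.trans ?_⟩
  calc (d + 1) * (2 ^ b * (2 ^ X') ^ d) ≤ 2 ^ d * (2 ^ b * (2 ^ X') ^ d) :=
        Nat.mul_le_mul_right _ (self_le_two_pow d)
    _ = 2 ^ (d + b + X' * d) := by rw [← pow_mul, ← pow_add, ← pow_add, add_assoc]

theorem den_pow_le {d X' : ℕ} {x : ℚ} (hx : HB (2 ^ X') x) :
    x.den ^ d ≤ 2 ^ (d + b + X' * d) := by
  calc x.den ^ d ≤ (2 ^ X') ^ d := Nat.pow_le_pow_left hx.2 _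
    _ = 2 ^ (X' * d) := by rw [← pow_mul]
    _ ≤ 2 ^ (d + b + X' * d) := Nat.pow_le_pow_right (by norm_num) (by omega)

/-- the register at a good root -/
theorem IsReg.reg_hb (h : IsReg n e b y P) {x : ℚ} (hx : aeval x (y n) = 0)
    (hgood : ∀ k < n, aeval x ((P k).leadingCoeff) ≠ 0) :
    ∀ k ≤ n, HB (2 ^ (bc n e b * k)) (aeval x (y (n - k))) := by
  have hxb := h.root_hb hx
  intro k
  induction k with
  | zero =>
    intro _
    rw [Nat.sub_zero, hx]
    simp [HB]
  | succ k ih =>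
    intro hk
    have ih := ih (by omega)
    obtain ⟨j, hj⟩ : ∃ j, j = n - (k + 1) := ⟨_, rfl⟩
    have hjn : j < n := by omega
    have hj1 : n - k = j + 1 := by omega
    rw [← hj]
    rw [hj1] at ih
    obtain ⟨m, hm⟩ : ∃ m, m = (P j).natDegree := ⟨_, rfl⟩
    have hm1 : 1 ≤ m := hm ▸ h.hP1 j hjn
    have hme : m ≤ e := hm ▸ h.hPe j hjn
    have hv : ∀ i, ∃ a : ℤ, aeval x ((P j).coeff i) * (x.den : ℚ) ^ e = a ∧
        a.natAbs ≤ 2 ^ (e + b + bx n e b * e) := fun i =>
      val2 (by have := h.hPD j hjn i; have := h.he; omega) (h.hPC j hjn i) hxb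
    choose a ha1 ha2 using hv
    have hq0 : (x.den : ℚ) ≠ 0 := by exact_mod_cast x.den_nz
    have hback := back (A := 2 ^ (e + b + bx n e b * e)) (Q := x.den ^ e)
      (W := 2 ^ (bc n e b * k)) hm1 a (fun i _ => ha2 i) (by
        intro h0
        have h1 := ha1 m
        rw [h0, Int.cast_zero] at h1
        rcases mul_eq_zero.mp h1 with h2 | h2
        · exact hgood j hjn (by rw [← h2, hm]; rfl)
        · exact pow_ne_zero _ hq0 h2) (den_pow_le (d := e) hxb)
        (u := aeval x (y j)) (w := aeval x (y (j + 1))) (by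
          rw [h.hs j hjn, aeval_step (P j) (y j) x (m + 1) (by omega), Finset.mul_sum]
          refine Finset.sum_congr rfl fun i _ => ?_
          rw [← ha1 i]
          push_cast
          ring) ih
    refine hback.mono ?_
    calc (m + 2) * (2 ^ (e + b + bx n e b * e)) ^ 2 * 2 ^ (bc n e b * k) ≤
          2 ^ (e + 1) * (2 ^ (e + b + bx n e b * e)) ^ 2 * 2 ^ (bc n e b * k) := by
          refine Nat.mul_le_mul_right _ (Nat.mul_le_mul_right _ ?_)
          have := self_le_two_pow (e + 1)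
          omega
      _ = 2 ^ (bc n e b * (k + 1)) := by
          rw [← pow_mul, ← pow_add, ← pow_add]
          congr 1
          rw [bc]
          ring

/-- the bound for the heights of all intermediate results -/
def bb (n e b : ℕ) : ℕ := bc n e b * (n * e + 1)

/-- the property of all results of the program -/
def Small (S : Finset ℚ) (B : ℕ) (f : ℤ[X]) : Prop := ∀ x ∈ S, HB (2 ^ B) (aeval x f)

theorem bx_le_bc (n e b : ℕ) (he : 1 ≤ e) : bx n e b ≤ bc n e b := by
  have : bx n e b * 1 ≤ bx n e b * e := Nat.mul_le_mul_left _ he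
  rw [bc]
  omega

theorem bc_le_bb (n e b : ℕ) : bc n e b ≤ bb n e b := by
  rw [bb]
  exact Nat.le_mul_of_pos_right _ (by omega)

theorem small_poly {S : Finset ℚ} (hS : ∀ x ∈ S, HB (2 ^ bx n e b) x) {f : ℤ[X]}
    (hd : f.natDegree ≤ e) (hf : CB (2 ^ b) f) : Small S (bb n e b) f := by
  intro x hx
  obtain ⟨a, h1, h2⟩ := val2 hd hf (hS x hx)
  have hq0 : x.den ^ e ≠ 0 := pow_ne_zero _ x.den_nz
  have h3 : 2 ^ (e + b + bx n e b * e) ≤ 2 ^ bb n e b := by
    refine Nat.pow_le_pow_right (by norm_num) ?_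
    have h4 := bc_le_bb n e b
    have h5 : bc n e b = 3 * e + 1 + 2 * b + 2 * (bx n e b * e) := rfl
    omega
  exact HB_of_div hq0 (by push_cast; exact h1) (h2.trans h3)
    ((den_pow_le (hS x hx)).trans h3)

/-- polynomials in the register -/
def CS (e b : ℕ) (R : ℤ[X][X]) : Prop := ∀ i, (R.coeff i).natDegree ≤ e ∧ CB (2 ^ b) (R.coeff i)

theorem small_step {S : Finset ℚ} (hS : ∀ x ∈ S, HB (2 ^ bx n e b) x) {v : ℤ[X]}
    (hv : ∀ x ∈ S, HB (2 ^ (bc n e b * n)) (aeval x v)) {R : ℤ[X][X]} (hR : R.natDegree ≤ e)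
    (hC : CS e b R) : Small S (bb n e b) (R.eval v) := by
  intro x hx
  have hxb := hS x hx
  obtain ⟨u, hu⟩ : ∃ u : ℚ, u = aeval x v := ⟨_, rfl⟩
  have hub := hv x hx
  rw [← hu] at hub
  have hq0 : (x.den : ℚ) ≠ 0 := by exact_mod_cast x.den_nz
  have hv' : ∀ i, ∃ a : ℤ, aeval x (R.coeff i) * (x.den : ℚ) ^ e = a ∧
      a.natAbs ≤ 2 ^ (e + b + bx n e b * e) := fun i => val2 (hC i).1 (hC i).2 hxb
  choose a ha1 ha2 using hv'
  obtain ⟨U, hU⟩ : ∃ U : ℕ, U = 2 ^ (bc n e b * n) := ⟨_, rfl⟩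
  rw [← hU] at hub
  have hU1 : 1 ≤ U := hU ▸ Nat.one_le_two_pow
  have hbig : 2 ^ e * (2 ^ (e + b + bx n e b * e) * U ^ e) ≤ 2 ^ bb n e b := by
    rw [hU, ← pow_mul, ← pow_add, ← pow_add]
    refine Nat.pow_le_pow_right (by norm_num) ?_
    have h5 : bc n e b = 3 * e + 1 + 2 * b + 2 * (bx n e b * e) := rfl
    have h6 : bb n e b = bc n e b * n * e + bc n e b := by
      rw [bb]
      ring
    omega
  have hden : x.den ^ e * u.den ^ e ≠ 0 :=
    Nat.mul_ne_zero (pow_ne_zero _ x.den_nz) (pow_ne_zero _ u.den_nz)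
  refine HB_of_div (a := ∑ i ∈ Finset.range (e + 1), a i * u.num ^ i * (u.den : ℤ) ^ (e - i))
    hden ?_ ?_ ?_
  · rw [aeval_step R v x (e + 1) (by omega), ← hu, Finset.sum_mul]
    push_cast
    refine Finset.sum_congr rfl fun i hi => ?_
    rw [Finset.mem_range] at hi
    have h1 : (u.num : ℚ) = u * u.den := (Rat.mul_den_eq_num u).symm
    have h2 : (u.den : ℚ) ^ e = (u.den : ℚ) ^ i * (u.den : ℚ) ^ (e - i) := by
      rw [← pow_add]
      congr 1
      omega
    rw [h1, ← ha1 i, h2, mul_pow]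
    ring
  · refine ((Int.natAbs_sum_le _ _).trans ?_).trans hbig
    have h1 : ∀ i ∈ Finset.range (e + 1),
        (a i * u.num ^ i * (u.den : ℤ) ^ (e - i)).natAbs ≤
          2 ^ (e + b + bx n e b * e) * U ^ e := by
      intro i hi
      rw [Finset.mem_range] at hi
      rw [Int.natAbs_mul, Int.natAbs_mul, Int.natAbs_pow, Int.natAbs_pow, Int.natAbs_natCast,
        mul_assoc]
      refine Nat.mul_le_mul (ha2 i) ?_
      have h2 : U ^ e = U ^ i * U ^ (e - i) := by
        rw [← pow_add]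
        congr 1
        omega
      rw [h2]
      exact Nat.mul_le_mul (Nat.pow_le_pow_left hub.1 _) (Nat.pow_le_pow_left hub.2 _)
    have h2 := Finset.sum_le_card_nsmul _ _ _ h1
    rw [Finset.card_range, smul_eq_mul] at h2
    exact h2.trans (Nat.mul_le_mul_right _ (self_le_two_pow e))
  · refine le_trans ?_ hbig
    have h1 : x.den ^ e ≤ 2 ^ (e + b + bx n e b * e) := den_pow_le hxb
    have h2 : u.den ^ e ≤ U ^ e := Nat.pow_le_pow_left hub.2 _
    calc x.den ^ e * u.den ^ e ≤ 2 ^ (e + b + bx n e b * e) * U ^ e := Nat.mul_le_mul h1 h2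
      _ ≤ 2 ^ e * (2 ^ (e + b + bx n e b * e) * U ^ e) :=
        Nat.le_mul_of_pos_left _ (by positivity)

theorem reach_poly {S : Finset ℚ} (he : 1 ≤ e) (hS : ∀ x ∈ S, HB (2 ^ bx n e b) x) :
    ∀ (d : ℕ) (f : ℤ[X]), d ≤ e → f.natDegree ≤ d → CB (2 ^ b) f →
      Reach (Small S (bb n e b)) f := by
  have hconst : ∀ a : ℤ, a.natAbs ≤ 2 ^ b → Reach (Small S (bb n e b)) (C a) := by
    intro a ha
    refine Reach.const a (small_poly hS (by simp) ?_)
    intro j
    rw [coeff_C]
    split_ifs with h0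
    · exact ha
    · simp
  have hX : Reach (Small S (bb n e b)) X := by
    refine Reach.var (small_poly hS (by simpa using he) ?_)
    intro j
    rw [coeff_X]
    split_ifs with h0
    · simpa using Nat.one_le_two_pow
    · simp
  intro d
  induction d with
  | zero =>
    intro f _ hf hC
    rw [eq_C_of_natDegree_le_zero hf]
    exact hconst _ (hC 0)
  | succ d ih =>
    intro f hd hf hC
    have h1 : CB (2 ^ b) (divX f) := fun j => by
      rw [coeff_divX]
      exact hC (j + 1)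
    have h2 : (divX f).natDegree ≤ d := by
      rw [natDegree_divX_eq_natDegree_tsub_one]
      omega
    have h3 := ih (divX f) (by omega) h2 h1
    have h4 : Reach (Small S (bb n e b)) (divX f * X) := by
      refine Reach.mul _ _ h3 hX (small_poly hS ?_ ?_)
      · refine natDegree_mul_le.trans ?_
        rw [natDegree_X]
        omega
      · intro j
        cases j with
        | zero => simp
        | succ j =>
          rw [coeff_mul_X]
          exact h1 j
    have h5 : f = divX f * X + C (f.coeff 0) := (divX_mul_X_add f).symm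
    rw [h5]
    refine Reach.add _ _ h4 (hconst _ (hC 0)) ?_
    rw [← h5]
    exact small_poly hS (by omega) hC

theorem reach_step {S : Finset ℚ} (he : 1 ≤ e) (hS : ∀ x ∈ S, HB (2 ^ bx n e b) x) {v : ℤ[X]}
    (hv : ∀ x ∈ S, HB (2 ^ (bc n e b * n)) (aeval x v)) (hr : Reach (Small S (bb n e b)) v) :
    ∀ (d : ℕ) (R : ℤ[X][X]), d ≤ e → R.natDegree ≤ d → CS e b R →
      Reach (Small S (bb n e b)) (R.eval v) := by
  intro d
  induction d with
  | zero =>
    intro R _ hR hC
    rw [eq_C_of_natDegree_le_zero hR, eval_C]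
    exact reach_poly he hS e _ le_rfl (hC 0).1 (hC 0).2
  | succ d ih =>
    intro R hd hR hC
    have h1 : CS e b (divX R) := fun j => by
      rw [coeff_divX]
      exact hC (j + 1)
    have h2 : (divX R).natDegree ≤ d := by
      rw [natDegree_divX_eq_natDegree_tsub_one]
      omega
    have h3 := ih (divX R) (by omega) h2 h1
    have h4 : Reach (Small S (bb n e b)) ((divX R).eval v * v) := by
      refine Reach.mul _ _ h3 hr ?_
      have h5 : (divX R).eval v * v = (divX R * X).eval v := by rw [eval_mul, eval_X]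
      rw [h5]
      refine small_step hS hv ?_ ?_
      · refine natDegree_mul_le.trans ?_
        rw [natDegree_X]
        omega
      · intro j
        cases j with
        | zero =>
          simp only [mul_coeff_zero, coeff_X_zero, mul_zero, natDegree_zero]
          exact ⟨Nat.zero_le _, fun j => by simp⟩
        | succ j =>
          rw [coeff_mul_X]
          exact h1 j
    have h5 : R.eval v = (divX R).eval v * v + R.coeff 0 := by
      conv_lhs => rw [← divX_mul_X_add R]
      rw [eval_add, eval_mul, eval_X, eval_C]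
    rw [h5]
    refine Reach.add _ _ h4 (reach_poly he hS e _ le_rfl (hC 0).1 (hC 0).2) ?_
    rw [← h5]
    exact small_step hS hv (by omega) hC

end Pool.Agent.TH853.Reg
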